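import Pool.Agent.Helper2.LD.St1
import Pool.Agent.Helper2.LD.St1b

/-!
# LD project, module InvEnd: the last but one round
-/

set_option autoImplicit false

namespace Pool.Agent.Helper72.LD

open Pool.Agent.Helper2.LD

section names

variable {K : Type}

private theorem same_refl (f : Fb K) : Fb.same f f := by
  cases f <;> simp [Fb.same]

private theorem same_root {f g : Fb K} (h : Fb.same f g) : f = Fb.root ↔ g = Fb.root := by
  cases f <;> cases g <;> simp_all [Fb.same]

private theorem same_a1 {f g : Fb K} (h : Fb.same f g) :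
    (∃ κ c, f = Fb.a1 κ c) ↔ (∃ κ c, g = Fb.a1 κ c) := by
  cases f <;> cases g <;> simp_all [Fb.same]

private theorem same_lf {f g : Fb K} (h : Fb.same f g) {κ : K} {c : Bool} {i : ℕ}
    (hf : f = Fb.lf κ c i) : ∃ c' i', g = Fb.lf κ c' i' := by
  subst hf
  cases g <;> simp_all [Fb.same]

private theorem same_r {f g : Fb K} (h : Fb.same f g) {κ : K} {c : Bool}
    (hf : f = Fb.r κ c) : ∃ κ' c', g = Fb.r κ' c' := by
  subst hf
  cases g <;> simp_all [Fb.same]

private theorem fdeg_same [DecidableEq K] {f g : Fb K} (h : Fb.same f g) (h0 : f ≠ Fb.root)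
    (h1 : ¬ ∃ κ c, f = Fb.r κ c) (m : ℕ) (code : K → Finset ℕ) (L L' : Finset K) :
    fdeg m code L f = fdeg m code L' g := by
  cases f <;> cases g <;> simp_all [Fb.same, fdeg]

private def near (κ : K) (c : Bool) (f : Fb K) : Prop :=
  f = Fb.a2 κ c ∨ f = Fb.r κ c ∨ ∃ i, f = Fb.lf κ c i

private def RA (f : Fb K) : Prop := f = Fb.root ∨ ∃ κ c, f = Fb.a1 κ c

private theorem same_RA {f g : Fb K} (h : Fb.same f g) : RA f ↔ RA g := by
  unfold RA
  rw [same_root h, same_a1 h]

private theorem near_not_RA {κ : K} {c : Bool} {f : Fb K} (h : near κ c f) : ¬ RA f := by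
  rcases h with rfl | rfl | ⟨i, rfl⟩ <;> simp [RA]

private theorem exists_ren {m : ℕ} {code : K → Finset ℕ} {L : Finset K} (L' : Finset K)
    (hm : 1 ≤ m) (f : Fb K) (hf : Fb.ok m code L f) (c0 : Bool) :
    ∃ f', Fb.same f f' ∧ Fb.ok m code L' f' ∧ ∀ κ0, ¬ near κ0 c0 f' := by
  cases f with
  | root => exact ⟨Fb.root, by simp [Fb.same], by simp [Fb.ok], by simp [near]⟩
  | a1 κ c => exact ⟨Fb.a1 κ c, by simp [Fb.same], by simp [Fb.ok], by simp [near]⟩
  | a2 κ c => exact ⟨Fb.a2 κ (!c0), by simp [Fb.same], by simp [Fb.ok], by simp [near]⟩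
  | r κ c => exact ⟨Fb.r κ (!c0), by simp [Fb.same], by simp [Fb.ok], by simp [near]⟩
  | lf κ c i =>
    exact ⟨Fb.lf κ (!c0) 0, by simp [Fb.same], by simp [Fb.ok]; omega, by simp [near]⟩
  | mk κ c i j => exact ⟨Fb.mk κ c i j, by simp [Fb.same], by simpa [Fb.ok] using hf, by simp [near]⟩

private theorem NmRel_sub {l l' : List (Fb K × Fb K)} (h : NmRel l) (hs : ∀ x ∈ l', x ∈ l) :
    NmRel l' :=
  ⟨fun a ha => h.1 a (hs a ha), fun a ha b hb => h.2.1 a (hs a ha) b (hs b hb),
    fun a ha b hb => h.2.2 a (hs a ha) b (hs b hb)⟩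

private theorem NmRel_pair {a b : Fb K × Fb K} (ha : Fb.same a.1 a.2) (hb : Fb.same b.1 b.2)
    (hg : a.1.gid = b.1.gid ↔ a.2.gid = b.2.gid) (he : a.1 = b.1 ↔ a.2 = b.2) :
    NmRel [a, b] := by
  have hmem : ∀ x, x ∈ [a, b] ↔ x = a ∨ x = b := by intro x; simp
  refine ⟨?_, ?_, ?_⟩
  · intro x hx
    rcases (hmem x).1 hx with rfl | rfl
    · exact ha
    · exact hb
  · intro x hx y hy
    rcases (hmem x).1 hx with rfl | rfl <;> rcases (hmem y).1 hy with rfl | rfl
    · simp
    · exact hg
    · rw [eq_comm, hg, eq_comm]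
    · simp
  · intro x hx y hy
    rcases (hmem x).1 hx with rfl | rfl <;> rcases (hmem y).1 hy with rfl | rfl
    · simp
    · exact he
    · rw [eq_comm, he, eq_comm]
    · simp

end names

section plain

variable {X : Type} {P : SimpleGraph X}

private theorem cn_iff (hB : Bip P) {x y : X} (hxy : x ≠ y) : CN P x y ↔ P.edist x y = (2 : ℕ) := by
  obtain ⟨col, hcol⟩ := hB
  constructor
  · rintro ⟨w, h1, h2⟩
    have hle : P.edist x y ≤ (2 : ℕ) := by
      have := SimpleGraph.Walk.edist_le (SimpleGraph.Walk.cons h1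
        (SimpleGraph.Walk.cons h2.symm SimpleGraph.Walk.nil))
      simpa using this
    have h0 : P.edist x y ≠ 0 := by
      rw [Ne, SimpleGraph.edist_eq_zero_iff]
      exact hxy
    have h1' : P.edist x y ≠ 1 := by
      intro e
      rw [SimpleGraph.edist_eq_one_iff_adj] at e
      have hb : ∀ a b c : Bool, a ≠ b → c ≠ b → a ≠ c → False := by decide
      exact hb _ _ _ (hcol _ _ h1) (hcol _ _ h2) (hcol _ _ e)
    have htop : P.edist x y ≠ ⊤ := fun e => by simp [e] at hle
    obtain ⟨n, hn⟩ := ENat.ne_top_iff_exists.1 htop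
    rw [← hn] at hle h0 h1' ⊢
    norm_cast at hle h0 h1' ⊢
    omega
  · intro h
    have hr : P.Reachable x y := by
      by_contra hc
      rw [SimpleGraph.edist_eq_top_of_not_reachable hc] at h
      simp at h
    obtain ⟨p, hp⟩ := hr.exists_walk_length_eq_edist
    rw [h] at hp
    have hp2 : p.length = 2 := by exact_mod_cast hp
    match p, hp2 with
    | SimpleGraph.Walk.cons h1 (SimpleGraph.Walk.cons h2 SimpleGraph.Walk.nil), _ =>
      exact ⟨_, h1, h2.symm⟩

end plain

section pairs

variable {K V V' : Type} {k : ℕ} {C : KCode k K} (S : SimpleGraph V) {lab : V → Finset K}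
  (S' : SimpleGraph V') {lab' : V' → Finset K}

private def PR (a b : FullV k C lab × FullV k C lab') : Prop :=
  (a.1 = b.1 ↔ a.2 = b.2) ∧
  ((full k C S lab).Adj a.1 b.1 ↔ (full k C S' lab').Adj a.2 b.2) ∧
  (a.1 ≠ b.1 → (CN (full k C S lab) a.1 b.1 ↔ CN (full k C S' lab') a.2 b.2))

private theorem CN_comm {W : Type} (G : SimpleGraph W) (u v : W) : CN G u v ↔ CN G v u :=
  ⟨fun ⟨w, h1, h2⟩ => ⟨w, h2, h1⟩, fun ⟨w, h1, h2⟩ => ⟨w, h2, h1⟩⟩

private theorem PR_symm {a b : FullV k C lab × FullV k C lab'} (h : PR S S' a b) :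
    PR S S' b a := by
  obtain ⟨h1, h2, h3⟩ := h
  refine ⟨by rw [eq_comm, h1, eq_comm], ?_, ?_⟩
  · rw [SimpleGraph.adj_comm, h2, SimpleGraph.adj_comm]
  · intro hne
    rw [CN_comm, h3 (Ne.symm hne), CN_comm]

private theorem PR_refl (a : FullV k C lab × FullV k C lab') : PR S S' a a := by
  refine ⟨by simp, ?_, fun h => (h rfl).elim⟩
  simp

private theorem full_ext {u v : FullV k C lab} : u = v ↔ own u = own v ∧ fb u = fb v := by
  constructor
  · rintro rfl
    exact ⟨rfl, rfl⟩
  · rintro ⟨h1, h2⟩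
    exact Subtype.ext (Prod.ext h1 h2)

private theorem full_adj (u v : FullV k C lab) : (full k C S lab).Adj u v ↔
    ((brG K S (HH k)).Adj (own u) (own v) ∧ fb u = Fb.root ∧ fb v = Fb.root) ∨
    (own u = own v ∧ Fb.adj (fb u) (fb v)) := Iff.rfl

/-- same owner -/
private theorem PR_same (hR : StRelNm) (hC : StCnF) (hm : 1 ≤ MM k)
    {a b : FullV k C lab × FullV k C lab'}
    (h1 : own a.1 = own b.1) (h2 : own a.2 = own b.2)
    (hN : NmRel [(fb a.1, fb a.2), (fb b.1, fb b.2)]) : PR S S' a b := by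
  have oka : Fb.ok (MM k) C.code (brL lab (own a.1)) (fb a.1) := a.1.2
  have okb : Fb.ok (MM k) C.code (brL lab (own a.1)) (fb b.1) := by rw [h1]; exact b.1.2
  have oka' : Fb.ok (MM k) C.code (brL lab' (own a.2)) (fb a.2) := a.2.2
  have okb' : Fb.ok (MM k) C.code (brL lab' (own a.2)) (fb b.2) := by rw [h2]; exact b.2.2
  obtain ⟨r1, r2⟩ := hR (MM k) C.code (brL lab (own a.1)) (brL lab' (own a.2))
    (fb a.1, fb a.2) (fb b.1, fb b.2) hm oka okb oka' okb' hN
  have heq : fb a.1 = fb b.1 ↔ fb a.2 = fb b.2 :=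
    hN.2.2 (fb a.1, fb a.2) (by simp) (fb b.1, fb b.2) (by simp)
  have e0 : a.1 = b.1 ↔ a.2 = b.2 := by
    rw [full_ext, full_ext]
    simp only [h1, h2, true_and]
    exact heq
  refine ⟨e0, ?_, ?_⟩
  · rw [full_adj, full_adj]
    simp only [h1, h2, SimpleGraph.irrefl, false_and, false_or, true_and]
    exact r1
  · intro hne
    have hne' : a.2 ≠ b.2 := fun e => hne (e0.2 e)
    have hfne : fb a.1 ≠ fb b.1 := fun e => hne (full_ext.2 ⟨h1, e⟩)
    rw [hC k C S lab a.1 b.1 hne, hC k C S' lab' a.2 b.2 hne']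
    have r3 := r2 hfne
    simp only [h1, h2, SimpleGraph.irrefl, and_false, ne_eq, not_true_eq_false, false_and,
      or_false, true_and]
    rw [h1, h2] at r3
    exact r3

/-- different owners -/
private theorem PR_diff (hC : StCnF) (hB : Bip (brG K S (HH k))) (hB' : Bip (brG K S' (HH k)))
    {a b : FullV k C lab × FullV k C lab'}
    (h1 : own a.1 ≠ own b.1) (h2 : own a.2 ≠ own b.2)
    (hsa : Fb.same (fb a.1) (fb a.2)) (hsb : Fb.same (fb b.1) (fb b.2))
    (hd : RA (fb a.1) → RA (fb b.1) → ∀ d : ℕ, d ≤ 2 →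
      ((brG K S (HH k)).edist (own a.1) (own b.1) = (d : ℕ∞) ↔
        (brG K S' (HH k)).edist (own a.2) (own b.2) = (d : ℕ∞))) : PR S S' a b := by
  have hne : a.1 ≠ b.1 := fun e => h1 (by rw [e])
  have hne' : a.2 ≠ b.2 := fun e => h2 (by rw [e])
  have hadj : RA (fb a.1) → RA (fb b.1) → ((brG K S (HH k)).Adj (own a.1) (own b.1) ↔
      (brG K S' (HH k)).Adj (own a.2) (own b.2)) := by
    intro ha hb
    rw [← SimpleGraph.edist_eq_one_iff_adj, ← SimpleGraph.edist_eq_one_iff_adj]
    have := hd ha hb 1 (by norm_num)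
    simpa using this
  have hcn : RA (fb a.1) → RA (fb b.1) → (CN (brG K S (HH k)) (own a.1) (own b.1) ↔
      CN (brG K S' (HH k)) (own a.2) (own b.2)) := by
    intro ha hb
    rw [cn_iff hB h1, cn_iff hB' h2]
    exact hd ha hb 2 le_rfl
  refine ⟨⟨fun e => (hne e).elim, fun e => (hne' e).elim⟩, ?_, ?_⟩
  · rw [full_adj, full_adj]
    simp only [h1, h2, false_and, or_false]
    rw [same_root hsa, same_root hsb]
    constructor
    · rintro ⟨e1, e2, e3⟩
      exact ⟨(hadj (Or.inl ((same_root hsa).2 e2)) (Or.inl ((same_root hsb).2 e3))).1 e1, e2, e3⟩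
    · rintro ⟨e1, e2, e3⟩
      exact ⟨(hadj (Or.inl ((same_root hsa).2 e2)) (Or.inl ((same_root hsb).2 e3))).2 e1, e2, e3⟩
  · intro _
    rw [hC k C S lab a.1 b.1 hne, hC k C S' lab' a.2 b.2 hne']
    simp only [h1, h2, false_and, false_or, ne_eq, not_false_eq_true, true_and]
    have s1 := same_root hsa
    have s2 := same_root hsb
    have s3 := same_a1 hsa
    have s4 := same_a1 hsb
    constructor
    · rintro (⟨e1, e2, e3⟩ | ⟨e1, e2, e3⟩ | ⟨e1, e2, e3⟩)
      · exact Or.inl ⟨s1.1 e1, s2.1 e2, (hcn (Or.inl e1) (Or.inl e2)).1 e3⟩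
      · exact Or.inr (Or.inl ⟨s1.1 e1, s4.1 e2, (hadj (Or.inl e1) (Or.inr e2)).1 e3⟩)
      · exact Or.inr (Or.inr ⟨s2.1 e1, s3.1 e2, (hadj (Or.inr e2) (Or.inl e1)).1 e3⟩)
    · rintro (⟨e1, e2, e3⟩ | ⟨e1, e2, e3⟩ | ⟨e1, e2, e3⟩)
      · exact Or.inl ⟨s1.2 e1, s2.2 e2, (hcn (Or.inl (s1.2 e1)) (Or.inl (s2.2 e2))).2 e3⟩
      · exact Or.inr (Or.inl ⟨s1.2 e1, s4.2 e2,
          (hadj (Or.inl (s1.2 e1)) (Or.inr (s4.2 e2))).2 e3⟩)
      · exact Or.inr (Or.inr ⟨s2.2 e1, s3.2 e2,
          (hadj (Or.inr (s3.2 e2)) (Or.inl (s2.2 e1))).2 e3⟩)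

/-- a leaf is related only to the names near it -/
private theorem unrel (hC : StCnF) {u y : FullV k C lab} {κ : K} {c : Bool} {i : ℕ}
    (hy : fb y = Fb.lf κ c i) (h : own u = own y → ¬ near κ c (fb u)) :
    u ≠ y ∧ ¬ (full k C S lab).Adj u y ∧ ¬ CN (full k C S lab) u y := by
  have hpar : ∀ g : Fb K, Fb.lf κ c i ≠ Fb.par g := by
    intro g
    cases g <;> simp [Fb.par]
    split_ifs <;> simp
  have hne : u ≠ y := by
    rintro rfl
    exact h rfl (Or.inr (Or.inr ⟨i, hy⟩))
  refine ⟨hne, ?_, ?_⟩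
  · rw [full_adj, hy]
    rintro (⟨-, -, e⟩ | ⟨e1, e2⟩)
    · simp at e
    · rcases e2 with ⟨-, e2⟩ | ⟨-, e2⟩
      · exact hpar _ e2
      · exact h e1 (Or.inr (Or.inl (by rw [e2]; rfl)))
  · rw [hC k C S lab u y hne, hy]
    rintro (⟨e1, g, -, e2, e3⟩ | ⟨-, e, -⟩ | ⟨-, ⟨κ', c', e⟩, -⟩ | ⟨e, -⟩)
    · have hg : g = Fb.r κ c := by
        rcases e3 with ⟨-, e3⟩ | ⟨-, e3⟩
        · rw [e3]; rfl
        · exact (hpar _ e3).elim
      subst hg
      rcases e2 with ⟨-, e2⟩ | ⟨-, e2⟩
      · apply h e1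
        generalize fb u = f at e2
        cases f <;> simp [Fb.par] at e2
        · obtain ⟨rfl, rfl⟩ := e2
          exact Or.inr (Or.inr ⟨_, rfl⟩)
        · split_ifs at e2
      · exact h e1 (Or.inl (by rw [e2]; rfl))
    · simp at e
    · simp at e
    · simp at e

private theorem PR_unrel (hC : StCnF) {a b : FullV k C lab × FullV k C lab'} {κ κ' : K}
    {c c' : Bool} {i i' : ℕ} (h1 : fb b.1 = Fb.lf κ c i) (h2 : fb b.2 = Fb.lf κ' c' i')
    (h3 : own a.1 = own b.1 → ¬ near κ c (fb a.1))
    (h4 : own a.2 = own b.2 → ¬ near κ' c' (fb a.2)) : PR S S' a b := by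
  obtain ⟨u1, u2, u3⟩ := unrel S hC h1 h3
  obtain ⟨w1, w2, w3⟩ := unrel S' hC h2 h4
  exact ⟨⟨fun e => (u1 e).elim, fun e => (w1 e).elim⟩, ⟨fun e => (u2 e).elim,
    fun e => (w2 e).elim⟩, fun _ => ⟨fun e => (u3 e).elim, fun e => (w3 e).elim⟩⟩

end pairs

section main

variable {K V V' : Type} [Fintype K] [DecidableEq K]

/-- relations and degrees from the relations of pairs -/
private theorem assemble (hCn : StCnF) (hDeg : StDegF) (k : ℕ) (hk : 40 ≤ k)
    (hK : k + 8 ≤ Fintype.card K) (C : KCode k K) (S : SimpleGraph V) (lab : V → Finset K)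
    (S' : SimpleGraph V') (lab' : V' → Finset K) (fl : Bool)
    (m1 m2 m3 : FullV k C lab × FullV k C lab') (q : List (FullV k C lab × FullV k C lab'))
    (hI : Inv k C S lab S' lab' 2 fl m1 m2 m3 q)
    (hold : ∀ a ∈ q ++ [m3, m2, m1], ∀ b ∈ q ++ [m3, m2, m1], PR S S' a b)
    (v : FullV k C lab) (v' : FullV k C lab') (hs : Fb.same (fb v) (fb v'))
    (hp : ∀ b ∈ q ++ [m3, m2, m1], PR S S' (v, v') b)
    (hr : (fb v = fb v' ∧ brL lab (own v) = brL lab' (own v')) ∨
      (own v ≠ own m1.1 ∧ own v ≠ own m2.1)) :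
    C1 (full k C S lab) (full k C S' lab') ((v, v') :: (q ++ [m3, m2, m1])) := by
  classical
  have hlen := hI.len
  have hMM : MM k = k - 4 := rfl
  have hPR : ∀ a ∈ (v, v') :: (q ++ [m3, m2, m1]), ∀ b ∈ (v, v') :: (q ++ [m3, m2, m1]),
      PR S S' a b := by
    intro a ha b hb
    rcases List.mem_cons.1 ha with rfl | ha <;> rcases List.mem_cons.1 hb with rfl | hb
    · exact PR_refl S S' _
    · exact hp b hb
    · exact PR_symm S S' (hp a ha)
    · exact hold a ha b hb
  refine ⟨fun a ha b hb => (hPR a ha b hb).1, fun a ha b hb => (hPR a ha b hb).2.1,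
    fun a ha b hb => (hPR a ha b hb).2.2, ?_⟩
  intro a ha t ht n hn
  have hsa : Fb.same (fb a.1) (fb a.2) := by
    rcases List.mem_cons.1 ha with rfl | ha
    · exact hs
    · exact hI.same a ha
  have hra : (fb a.1 = fb a.2 ∧ brL lab (own a.1) = brL lab' (own a.2)) ∨
      (own a.1 ≠ own m1.1 ∧ own a.1 ≠ own m2.1) := by
    rcases List.mem_cons.1 ha with rfl | ha
    · exact hr
    · by_cases h : own a.1 = own m1.1 ∨ own a.1 = own m2.1
      · exact Or.inl (hI.ex a ha h)
      · right
        exact not_or.1 h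
  by_cases hroot : fb a.1 = Fb.root
  · have hroot' := (same_root hsa).1 hroot
    have htc : t.card ≤ q.length + 4 := by
      have hsub : t ⊆ (((v, v') :: (q ++ [m3, m2, m1])).map Prod.fst).toFinset := by
        intro x hx
        obtain ⟨-, ⟨b, hb, rfl⟩, -⟩ := ht x hx
        rw [List.mem_toFinset]
        exact List.mem_map_of_mem hb
      refine (Finset.card_le_card hsub).trans ((List.toFinset_card_le _).trans ?_)
      simp
    have hn' : n ≤ k := by omega
    exact ⟨fun _ => (hDeg k hk hK C S' lab' a.2).1 hroot' n hn',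
      fun _ => (hDeg k hk hK C S lab a.1).1 hroot n hn'⟩
  · have hroot' : fb a.2 ≠ Fb.root := fun e => hroot ((same_root hsa).2 e)
    rw [(hDeg k hk hK C S lab a.1).2 hroot n, (hDeg k hk hK C S' lab' a.2).2 hroot' n]
    rcases hra with ⟨e1, e2⟩ | ⟨e1, e2⟩
    · rw [e1, e2]
    · by_cases hrr : ∃ κ c, fb a.1 = Fb.r κ c
      · obtain ⟨κ, c, hrr⟩ := hrr
        obtain ⟨κ', c', hrr'⟩ := same_r hsa hrr
        have hmem : ∀ b ∈ (v, v') :: (q ++ [m3, m2, m1]), own b.1 ≠ own m1.1 →
            own b.1 ≠ own m2.1 → b.1 ∈ (v :: (q.map Prod.fst ++ [m3.1])).toFinset := by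
          intro b hb h1 h2
          rw [List.mem_toFinset]
          rcases List.mem_cons.1 hb with rfl | hb
          · exact List.mem_cons_self
          · rw [List.mem_append] at hb
            rcases hb with hb | hb
            · exact List.mem_cons_of_mem _ (List.mem_append_left _ (List.mem_map_of_mem hb))
            · have hb' : b = m3 ∨ b = m2 ∨ b = m1 := by simpa using hb
              rcases hb' with rfl | rfl | rfl
              · exact List.mem_cons_of_mem _ (List.mem_append_right _ List.mem_cons_self)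
              · exact (h2 rfl).elim
              · exact (h1 rfl).elim
        have htc : t.card ≤ q.length + 1 := by
          have hsub : t ⊆ ((v :: (q.map Prod.fst ++ [m3.1])).toFinset).erase a.1 := by
            intro x hx
            obtain ⟨hx1, ⟨b, hb, rfl⟩, hx3⟩ := ht x hx
            have hown : own b.1 = own a.1 := by
              rcases hx3 with hx3 | hx3
              · rw [full_adj, hrr] at hx3
                rcases hx3 with ⟨-, e, -⟩ | ⟨e, -⟩
                · simp at e
                · exact e.symm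
              · rw [hCn k C S lab a.1 b.1 (Ne.symm hx1), hrr] at hx3
                rcases hx3 with ⟨e, -⟩ | ⟨e, -⟩ | ⟨e, -⟩ | ⟨-, ⟨κ'', c'', e⟩, -⟩
                · exact e.symm
                · simp at e
                · simp at e
                · simp at e
            rw [Finset.mem_erase]
            exact ⟨hx1, hmem b hb (by rw [hown]; exact e1) (by rw [hown]; exact e2)⟩
          have h3 := Finset.card_le_card hsub
          rw [Finset.card_erase_of_mem (hmem a ha e1 e2)] at h3
          have h4 := List.toFinset_card_le (v :: (q.map Prod.fst ++ [m3.1]))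
          simp only [List.length_cons, List.length_append, List.length_map,
            List.length_nil] at h4
          omega
        rw [hrr, hrr']
        simp only [fdeg]
        constructor <;> intro _ <;> split_ifs <;> omega
      · rw [fdeg_same hsa hroot hrr (MM k) C.code (brL lab (own a.1)) (brL lab' (own a.2))]

end main

theorem pInvEnd (hHom : StHom) (hPL : StPL) (hNm : StNm) (hRel : StRelNm) (hCn : StCnF)
    (hDeg : StDegF) : StInvEnd := by
  intro K V V' _ _ k hk hK C S lab S' lab' hS hS' fl m1 m2 m3 q hI v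
  classical
  have hlen := hI.len
  have hMM : MM k = k - 4 := rfl
  have hm : 1 ≤ MM k := by omega
  have hP := hPL k hk K V S hK hS
  have hP' := hPL k hk K V' S' hK hS'
  have hB := hP.bip
  have hB' := hP'.bip
  have hm1 : m1 ∈ q ++ [m3, m2, m1] := by simp
  have hm2 : m2 ∈ q ++ [m3, m2, m1] := by simp
  have hm3 : m3 ∈ q ++ [m3, m2, m1] := by simp
  -- special marks
  have hspec : ∀ a ∈ q ++ [m3, m2, m1], (fl = true ∧ own a.1 = own m3.1) →
      a = m3 ∧ ¬ RA (fb a.1) := by
    rintro a ha ⟨h1, h2⟩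
    obtain ⟨⟨κ, c, i, h3⟩, h4, -, -⟩ := hI.fl h1
    have h5 := h4 a ha h2
    refine ⟨h5, ?_⟩
    rw [h5, h3]
    simp [RA]
  have hdist : ∀ a ∈ q ++ [m3, m2, m1], ∀ b ∈ q ++ [m3, m2, m1],
      ¬ (fl = true ∧ own a.1 = own m3.1) → ¬ (fl = true ∧ own b.1 = own m3.1) →
      ∀ d : ℕ, d ≤ 4 → ((brG K S (HH k)).edist (own a.1) (own b.1) = (d : ℕ∞) ↔
        (brG K S' (HH k)).edist (own a.2) (own b.2) = (d : ℕ∞)) := by
    intro a ha b hb h1 h2 d hd
    exact hI.dist a ha b hb d 0 (Or.inr h1) 0 (Or.inr h2) (by norm_num; omega)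
  have hold : ∀ a ∈ q ++ [m3, m2, m1], ∀ b ∈ q ++ [m3, m2, m1], PR S S' a b := by
    intro a ha b hb
    by_cases ho : own a.1 = own b.1
    · have ho' := (hI.own a ha b hb).1 ho
      refine PR_same S S' hRel hCn hm ho ho' (NmRel_pair (hI.same a ha) (hI.same b hb)
        (hI.gid a ha b hb ho) ?_)
      have h1 := hI.eq a ha b hb
      rw [full_ext, full_ext] at h1
      simpa [ho, ho'] using h1
    · have ho' : own a.2 ≠ own b.2 := fun e => ho ((hI.own a ha b hb).2 e)
      refine PR_diff S S' hCn hB hB' ho ho' (hI.same a ha) (hI.same b hb) ?_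
      intro ra rb d hd
      exact hdist a ha b hb (fun h => (hspec a ha h).2 ra) (fun h => (hspec b hb h).2 rb) d
        (by omega)
  have fin := assemble hCn hDeg k hk hK C S lab S' lab' fl m1 m2 m3 q hI hold v
  -- rigid owners
  have rigid : ∀ M ∈ q ++ [m3, m2, m1], (own M.1 = own m1.1 ∨ own M.1 = own m2.1) →
      own v = own M.1 →
      ∃ v', C1 (full k C S lab) (full k C S' lab') ((v, v') :: (q ++ [m3, m2, m1])) := by
    intro M hM hM2 hv
    obtain ⟨hex1, hex2⟩ := hI.ex M hM hM2
    have hok : Fb.ok (MM k) C.code (brL lab' (own M.2)) (fb v) := by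
      rw [← hex2, ← hv]
      exact v.2
    have hMns : ¬ (fl = true ∧ own M.1 = own m3.1) := by
      rintro ⟨h1, h2⟩
      obtain ⟨-, -, h3, h4⟩ := hI.fl h1
      rcases hM2 with h5 | h5
      · exact h3 (h2.symm.trans h5)
      · exact h4 (h2.symm.trans h5)
    let v' : FullV k C lab' := ⟨(own M.2, fb v), hok⟩
    have ov : own v' = own M.2 := rfl
    have fv : fb v' = fb v := rfl
    refine ⟨v', fin v' (by rw [fv]; exact same_refl _) ?_ (Or.inl ⟨fv.symm, by
      rw [hv, ov]; exact hex2⟩)⟩
    intro b hb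
    by_cases ho : own v = own b.1
    · have ho' : own v' = own b.2 := (hI.own M hM b hb).1 (hv.symm.trans ho)
      have hb2 := hI.ex b hb (by rw [← ho, hv]; exact hM2)
      refine PR_same S S' hRel hCn hm (a := (v, v')) ho ho' (NmRel_pair ?_ (hI.same b hb) ?_ ?_)
      · exact same_refl _
      · show (fb v).gid = (fb b.1).gid ↔ (fb v).gid = (fb b.2).gid
        rw [hb2.1]
      · show fb v = fb b.1 ↔ fb v = fb b.2
        rw [hb2.1]
    · have ho' : own v' ≠ own b.2 := by
        intro e
        exact ho (hv.trans ((hI.own M hM b hb).2 e))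
      refine PR_diff S S' hCn hB hB' (a := (v, v')) ho ho' (same_refl _) (hI.same b hb) ?_
      intro ra rb d hd
      show (brG K S (HH k)).edist (own v) (own b.1) = (d : ℕ∞) ↔
        (brG K S' (HH k)).edist (own M.2) (own b.2) = (d : ℕ∞)
      rw [hv]
      exact hdist M hM b hb hMns (fun h => (hspec b hb h).2 rb) d (by omega)
  by_cases hr1 : own v = own m1.1
  · exact rigid m1 hm1 (Or.inl rfl) hr1
  by_cases hr2 : own v = own m2.1
  · exact rigid m2 hm2 (Or.inr rfl) hr2
  by_cases hE : ∀ b ∈ q ++ [m3, m2, m1], ¬ (fl = true ∧ own b.1 = own m3.1) → own v ≠ own b.1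
  · by_cases hC : fl = true ∧ own v = own m3.1 ∧
        (∀ κ0 c0 i0, fb m3.1 = Fb.lf κ0 c0 i0 → near κ0 c0 (fb v))
    · -- near the special leaf
      obtain ⟨hfl, hv, hnear⟩ := hC
      obtain ⟨⟨κ0, c0, i0, h3⟩, h4, h5, h6⟩ := hI.fl hfl
      have hnr := hnear κ0 c0 i0 h3
      obtain ⟨f', hf1, hf2⟩ := hNm (MM k) C.code (brL lab (own v)) (brL lab' (own m3.2))
        [(fb m3.1, fb m3.2)] (fb v) hm v.2 (by
          intro a ha
          have ha' : a = (fb m3.1, fb m3.2) := by simpa using ha
          rw [ha', hv]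
          exact ⟨m3.1.2, m3.2.2⟩) (by
          refine ⟨?_, ?_, ?_⟩
          · intro a ha
            have ha' : a = (fb m3.1, fb m3.2) := by simpa using ha
            rw [ha']
            exact hI.same m3 hm3
          · intro a ha b hb
            have ha' : a = (fb m3.1, fb m3.2) := by simpa using ha
            have hb' : b = (fb m3.1, fb m3.2) := by simpa using hb
            rw [ha', hb']
            simp
          · intro a ha b hb
            have ha' : a = (fb m3.1, fb m3.2) := by simpa using ha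
            have hb' : b = (fb m3.1, fb m3.2) := by simpa using hb
            rw [ha', hb']
            simp) (by
          intro κ c i _
          left
          simp only [List.length_cons, List.length_nil]
          omega)
      let v' : FullV k C lab' := ⟨(own m3.2, f'), hf1⟩
      have ov : own v' = own m3.2 := rfl
      have fv : fb v' = f' := rfl
      refine ⟨v', fin v' (hf2.1 (fb v, f') (by simp)) ?_ (Or.inr ⟨hr1, hr2⟩)⟩
      intro b hb
      by_cases ho : own v = own b.1
      · have hbm : b = m3 := h4 b hb (ho.symm.trans hv)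
        rw [hbm]
        exact PR_same S S' hRel hCn hm (a := (v, v')) hv rfl hf2
      · have ho' : own v' ≠ own b.2 := by
          intro e
          exact ho (hv.trans ((hI.own m3 hm3 b hb).2 e))
        refine PR_diff S S' hCn hB hB' (a := (v, v')) ho ho' (hf2.1 (fb v, f') (by simp))
          (hI.same b hb) ?_
        intro ra
        exact (near_not_RA hnr ra).elim
    · -- a new owner
      obtain ⟨c0', hc0'⟩ : ∃ c0' : Bool, fl = true → ∃ κ0 c0 i0 i0', fb m3.1 = Fb.lf κ0 c0 i0 ∧
          fb m3.2 = Fb.lf κ0 c0' i0' ∧ (own v = own m3.1 → ¬ near κ0 c0 (fb v)) := by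
        by_cases hfl : fl = true
        · obtain ⟨⟨κ0, c0, i0, h3⟩, h4, h5, h6⟩ := hI.fl hfl
          have hsm := hI.same m3 hm3
          obtain ⟨c0', i0', h7⟩ := same_lf hsm h3
          refine ⟨c0', fun _ => ⟨κ0, c0, i0, i0', h3, h7, ?_⟩⟩
          intro hv hnr
          apply hC
          refine ⟨hfl, hv, ?_⟩
          intro κ c i h9
          rw [h3] at h9
          simp only [Fb.lf.injEq] at h9
          obtain ⟨rfl, rfl, -⟩ := h9
          exact hnr
        · exact ⟨true, fun h => (hfl h).elim⟩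
      -- the plain game
      set p : List (BrV K V (HH k) × BrV K V' (HH k) × ℕ) :=
        ((q ++ [m3, m2, m1]).filter fun a => decide (¬ (fl = true ∧ own a.1 = own m3.1))).map
          (fun a => (own a.1, own a.2, 0)) with hp
      have hpm : ∀ x ∈ p, ∃ a ∈ q ++ [m3, m2, m1], ¬ (fl = true ∧ own a.1 = own m3.1) ∧
          x = (own a.1, own a.2, 0) := by
        intro x hx
        rw [hp, List.mem_map] at hx
        obtain ⟨a, ha, rfl⟩ := hx
        rw [List.mem_filter] at ha
        exact ⟨a, ha.1, of_decide_eq_true ha.2, rfl⟩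
      have hpm' : ∀ a ∈ q ++ [m3, m2, m1], ¬ (fl = true ∧ own a.1 = own m3.1) →
          (own a.1, own a.2, 0) ∈ p := by
        intro a ha h
        rw [hp, List.mem_map]
        refine ⟨a, ?_, rfl⟩
        rw [List.mem_filter]
        exact ⟨ha, decide_eq_true h⟩
      have hplen : p.length ≤ k := by
        rw [hp, List.length_map]
        refine (List.length_filter_le _ _).trans ?_
        simp only [List.length_append, List.length_cons, List.length_nil]
        omega
      have hHp : Hom (brG K S (HH k)) brH (brG K S' (HH k)) brH (1 + 1) p := by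
        refine ⟨?_, ?_⟩
        · intro x hx y hy d hd
          obtain ⟨a, ha, ha2, rfl⟩ := hpm x hx
          obtain ⟨b, hb, hb2, rfl⟩ := hpm y hy
          exact hdist a ha b hb ha2 hb2 d (by simpa using hd)
        · intro x hx
          obtain ⟨a, ha, ha2, rfl⟩ := hpm x hx
          exact hI.ht a ha
      obtain ⟨x', hx'⟩ := hHom k (by omega) _ _ _ _ hP hP' 1 (by omega) p hplen hHp (own v)
      have hxd : ∀ b ∈ q ++ [m3, m2, m1], ¬ (fl = true ∧ own b.1 = own m3.1) → ∀ d : ℕ, d ≤ 2 →
          ((brG K S (HH k)).edist (own v) (own b.1) = (d : ℕ∞) ↔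
            (brG K S' (HH k)).edist x' (own b.2) = (d : ℕ∞)) := by
        intro b hb hb2 d hd
        exact hx'.1 (own v, x', 0) List.mem_cons_self (own b.1, own b.2, 0)
          (List.mem_cons_of_mem _ (hpm' b hb hb2)) d (by simpa using hd)
      obtain ⟨f', hf1, hf2, hf3⟩ := exists_ren (brL lab' x') hm (fb v) v.2 c0'
      let v' : FullV k C lab' := ⟨(x', f'), hf2⟩
      have ov : own v' = x' := rfl
      have fv : fb v' = f' := rfl
      refine ⟨v', fin v' hf1 ?_ (Or.inr ⟨hr1, hr2⟩)⟩
      intro b hb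
      by_cases hbs : fl = true ∧ own b.1 = own m3.1
      · obtain ⟨hbm, -⟩ := hspec b hb hbs
        obtain ⟨κ0, c0, i0, i0', g1, g2, g3⟩ := hc0' hbs.1
        rw [hbm]
        exact PR_unrel S S' hCn (a := (v, v')) g1 g2 g3 (fun _ => hf3 κ0)
      · have ho : own v ≠ own b.1 := hE b hb hbs
        have ho' : own v' ≠ own b.2 := by
          intro e
          apply ho
          have h0 := (hxd b hb hbs 0 (by norm_num)).2 (by
            rw [← ov, e]
            simp)
          simpa using h0
        refine PR_diff S S' hCn hB hB' (a := (v, v')) ho ho' hf1 (hI.same b hb) ?_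
        intro _ _ d hd
        exact hxd b hb hbs d hd
  · -- an old owner
    push Not at hE
    obtain ⟨b0, hb0, hb0s, hv⟩ := hE
    set l : List (Fb K × Fb K) :=
      ((q ++ [m3, m2, m1]).filter fun a => decide (own a.1 = own v)).map
        (fun a => (fb a.1, fb a.2)) with hl
    have hlm : ∀ x ∈ l, ∃ a ∈ q ++ [m3, m2, m1], own a.1 = own v ∧ x = (fb a.1, fb a.2) := by
      intro x hx
      rw [hl, List.mem_map] at hx
      obtain ⟨a, ha, rfl⟩ := hx
      rw [List.mem_filter] at ha
      exact ⟨a, ha.1, by simpa using ha.2, rfl⟩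
    have hlm' : ∀ a ∈ q ++ [m3, m2, m1], own a.1 = own v → (fb a.1, fb a.2) ∈ l := by
      intro a ha h
      rw [hl, List.mem_map]
      refine ⟨a, ?_, rfl⟩
      rw [List.mem_filter]
      exact ⟨ha, by simpa using h⟩
    have hown2 : ∀ a ∈ q ++ [m3, m2, m1], own a.1 = own v → own a.2 = own b0.2 := fun a ha h =>
      (hI.own a ha b0 hb0).1 (h.trans hv)
    obtain ⟨f', hf1, hf2⟩ := hNm (MM k) C.code (brL lab (own v)) (brL lab' (own b0.2)) l (fb v)
      hm v.2 (by
        intro x hx
        obtain ⟨a, ha, ha2, rfl⟩ := hlm x hx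
        rw [← ha2, ← hown2 a ha ha2]
        exact ⟨a.1.2, a.2.2⟩) (by
        refine ⟨?_, ?_, ?_⟩
        · intro x hx
          obtain ⟨a, ha, ha2, rfl⟩ := hlm x hx
          exact hI.same a ha
        · intro x hx y hy
          obtain ⟨a, ha, ha2, rfl⟩ := hlm x hx
          obtain ⟨b, hb, hb2, rfl⟩ := hlm y hy
          exact hI.gid a ha b hb (ha2.trans hb2.symm)
        · intro x hx y hy
          obtain ⟨a, ha, ha2, rfl⟩ := hlm x hx
          obtain ⟨b, hb, hb2, rfl⟩ := hlm y hy
          have h1 := hI.eq a ha b hb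
          rw [full_ext, full_ext] at h1
          have e1 : own a.1 = own b.1 := ha2.trans hb2.symm
          have e2 : own a.2 = own b.2 := (hI.own a ha b hb).1 e1
          simpa [e1, e2] using h1) (by
        intro κ c i hfv
        have hq := List.length_filter_le (fun a : FullV k C lab × FullV k C lab' =>
          decide (own a.1 = own v)) q
        by_cases h3 : own m3.1 = own v
        · have hll : l.length = (q.filter fun a => decide (own a.1 = own v)).length + 1 := by
            rw [hl, List.length_map, List.filter_append, List.length_append]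
            simp [h3, Ne.symm hr1, Ne.symm hr2]
          right
          refine ⟨by omega, (fb m3.1, fb m3.2), hlm' m3 hm3 h3, ?_⟩
          by_cases h4 : ∀ j, fb m3.1 ≠ Fb.lf κ c j
          · exact Or.inl h4
          · push Not at h4
            obtain ⟨j, h4⟩ := h4
            right
            have hsm := hI.same m3 hm3
            obtain ⟨c', j', h7⟩ := same_lf hsm h4
            refine ⟨j, c', j', by rw [h4, h7], ?_⟩
            have h9 := hI.m3l κ c j h4 c' j' h7
            rw [h3, hown2 m3 hm3 h3] at h9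
            exact h9
        · left
          have hll : l.length = (q.filter fun a => decide (own a.1 = own v)).length := by
            rw [hl, List.length_map, List.filter_append, List.length_append]
            simp [h3, Ne.symm hr1, Ne.symm hr2]
          omega)
    let v' : FullV k C lab' := ⟨(own b0.2, f'), hf1⟩
    have ov : own v' = own b0.2 := rfl
    have fv : fb v' = f' := rfl
    refine ⟨v', fin v' (hf2.1 (fb v, f') List.mem_cons_self) ?_ (Or.inr ⟨hr1, hr2⟩)⟩
    intro b hb
    by_cases ho : own v = own b.1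
    · have ho' : own v' = own b.2 := (hown2 b hb ho.symm).symm
      refine PR_same S S' hRel hCn hm (a := (v, v')) ho ho' (NmRel_sub hf2 ?_)
      intro x hx
      have hx' : x = (fb v, fb v') ∨ x = (fb b.1, fb b.2) := by simpa using hx
      rcases hx' with rfl | rfl
      · exact List.mem_cons_self
      · exact List.mem_cons_of_mem _ (hlm' b hb ho.symm)
    · have ho' : own v' ≠ own b.2 := by
        intro e
        exact ho (hv.trans ((hI.own b0 hb0 b hb).2 e))
      refine PR_diff S S' hCn hB hB' (a := (v, v')) ho ho' (hf2.1 (fb v, f') List.mem_cons_self)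
        (hI.same b hb) ?_
      intro ra rb d hd
      show (brG K S (HH k)).edist (own v) (own b.1) = (d : ℕ∞) ↔
        (brG K S' (HH k)).edist (own b0.2) (own b.2) = (d : ℕ∞)
      rw [hv]
      exact hdist b0 hb0 b hb (fun h => hb0s h.1 h.2) (fun h => (hspec b hb h).2 rb) d (by omega)

end Pool.Agent.Helper72.LD
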