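import Pool.Agent.Helper2.LD.St1

/-!
# LD project, module EF1: the last round
-/

set_option autoImplicit false
set_option linter.unusedSimpArgs false

namespace Pool.Agent.Helper72.LD

open Pool.Agent.Helper2.LD

section graph

variable {V : Type} {G : SimpleGraph V}

private theorem quad (hN : NoCyc G 6) {x y w w' : V} (hxy : x ≠ y) (h1 : G.Adj x w)
    (h2 : G.Adj y w) (h3 : G.Adj x w') (h4 : G.Adj y w') : w = w' := by
  by_contra hne
  have hc : (SimpleGraph.Walk.cons h1 (SimpleGraph.Walk.cons h2.symm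
      (SimpleGraph.Walk.cons h4 (SimpleGraph.Walk.cons h3.symm SimpleGraph.Walk.nil)))).IsCycle := by
    rw [SimpleGraph.Walk.cons_isCycle_iff]
    have e1 := h1.ne
    have e2 := h2.ne
    have e3 := h3.ne
    have e4 := h4.ne
    have e1' := e1.symm
    have e2' := e2.symm
    have e3' := e3.symm
    have e4' := e4.symm
    have hxy' := hxy.symm
    have hne' := Ne.symm hne
    constructor
    · simp only [SimpleGraph.Walk.cons_isPath_iff, SimpleGraph.Walk.IsPath.nil,
        SimpleGraph.Walk.support_cons, SimpleGraph.Walk.support_nil, List.mem_cons,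
        List.not_mem_nil, or_false, not_or, true_and]
      tauto
    · simp only [SimpleGraph.Walk.edges_cons, SimpleGraph.Walk.edges_nil, List.mem_cons,
        List.not_mem_nil, or_false, not_or, Sym2.eq_iff]
      tauto
  have := hN _ _ hc
  simp at this

private theorem hex (hB : Bip G) (hN : NoCyc G 6) {x y z w w' w'' : V} (hxy : x ≠ y)
    (hxz : x ≠ z) (hyz : y ≠ z) (h1 : G.Adj x w) (h2 : G.Adj y w) (h3 : G.Adj x w')
    (h4 : G.Adj z w') (h5 : G.Adj y w'') (h6 : G.Adj z w'') : w = w' := by
  obtain ⟨col, hcol⟩ := hB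
  by_contra hne
  have hne2 : w ≠ w'' := by
    rintro rfl
    exact hne (quad hN hxz h1 h6 h3 h4)
  have hne3 : w' ≠ w'' := by
    rintro rfl
    exact hne (quad hN hxy h1 h2 h3 h5)
  have c1 := hcol _ _ h1
  have c2 := hcol _ _ h2
  have c3 := hcol _ _ h3
  have c4 := hcol _ _ h4
  have c5 := hcol _ _ h5
  have c6 := hcol _ _ h6
  have cne : ∀ a b : V, col a ≠ col b → a ≠ b := fun a b h e => h (congrArg col e)
  have exw : x ≠ w := cne _ _ c1
  have eyw : y ≠ w := cne _ _ c2
  have exw' : x ≠ w' := cne _ _ c3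
  have ezw' : z ≠ w' := cne _ _ c4
  have eyw'' : y ≠ w'' := cne _ _ c5
  have ezw'' : z ≠ w'' := cne _ _ c6
  have hb : ∀ a b c : Bool, a ≠ b → c ≠ b → ∀ d, c ≠ d → a ≠ d := by decide
  have exw'' : x ≠ w'' := cne _ _ (hb _ _ _ c1 c2 _ c5)
  have eyw' : y ≠ w' := cne _ _ (hb _ _ _ c2 c1 _ c3)
  have ezw : z ≠ w := cne _ _ (hb _ _ _ c4 c3 _ c1)
  have hc : (SimpleGraph.Walk.cons h1 (SimpleGraph.Walk.cons h2.symm
      (SimpleGraph.Walk.cons h5 (SimpleGraph.Walk.cons h6.symm (SimpleGraph.Walk.cons h4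
        (SimpleGraph.Walk.cons h3.symm SimpleGraph.Walk.nil)))))).IsCycle := by
    rw [SimpleGraph.Walk.cons_isCycle_iff]
    constructor
    · simp only [SimpleGraph.Walk.cons_isPath_iff, SimpleGraph.Walk.IsPath.nil,
        SimpleGraph.Walk.support_cons, SimpleGraph.Walk.support_nil, List.mem_cons,
        List.not_mem_nil, or_false, not_or, true_and]
      simp only [hxy, hxz, hyz, hne, hne2, hne3, exw, eyw, exw', ezw', eyw'', ezw'', exw'', eyw',
        ezw, hxy.symm, hxz.symm, hyz.symm, Ne.symm hne, hne2.symm, hne3.symm, exw.symm, eyw.symm,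
        exw'.symm, ezw'.symm, eyw''.symm, ezw''.symm, exw''.symm, eyw'.symm, ezw.symm,
        not_false_eq_true, and_self]
    · simp only [SimpleGraph.Walk.edges_cons, SimpleGraph.Walk.edges_nil, List.mem_cons,
        List.not_mem_nil, or_false, not_or, Sym2.eq_iff]
      simp only [hxy, hxz, hyz, hne, hne2, hne3, exw, eyw, exw', ezw', eyw'', ezw'', exw'', eyw',
        ezw, hxy.symm, hxz.symm, hyz.symm, Ne.symm hne, hne2.symm, hne3.symm, exw.symm, eyw.symm,
        exw'.symm, ezw'.symm, eyw''.symm, ezw''.symm, exw''.symm, eyw'.symm, ezw.symm,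
        not_false_eq_true, and_self, and_false, false_and, or_self]
  have := hN _ _ hc
  simp at this

/-- `u` is the neighbour of `a` blocked by `b` -/
private def Bk (G : SimpleGraph V) (a b u : V) : Prop := G.Adj a u ∧ (u = b ∨ G.Adj b u)

private theorem tri (hB : Bip G) {x y z : V} (h1 : G.Adj x y) (h2 : G.Adj y z) (h3 : G.Adj x z) :
    False := by
  obtain ⟨col, hcol⟩ := hB
  have hb : ∀ a b c : Bool, a ≠ b → b ≠ c → a ≠ c → False := by decide
  exact hb _ _ _ (hcol _ _ h1) (hcol _ _ h2) (hcol _ _ h3)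

private theorem Bk_unique (hB : Bip G) (hN : NoCyc G 6) {a b u u' : V} (hab : a ≠ b)
    (h : Bk G a b u) (h' : Bk G a b u') : u = u' := by
  obtain ⟨h1, h2 | h2⟩ := h <;> obtain ⟨h3, h4 | h4⟩ := h'
  · rw [h2, h4]
  · subst h2
    exact (tri hB h1 h4 h3).elim
  · subst h4
    exact (tri hB h3 h2 h1).elim
  · exact quad hN hab h1 h2 h3 h4

private theorem Bk_exists {a b : V} (h : G.Adj a b ∨ CN G a b) : ∃ u, Bk G a b u := by
  rcases h with h | ⟨w, h1, h2⟩
  · exact ⟨b, h, Or.inl rfl⟩
  · exact ⟨w, h1, Or.inr h2⟩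

end graph

section main

variable {V W : Type} {G : SimpleGraph V} {H : SimpleGraph W}

/-- the partner of a set of marks -/
private theorem C1_symm {p : List (V × W)} (h : C1 G H p) : C1 H G (p.map Prod.swap) := by
  classical
  have key : ∀ a : W × V, a ∈ p.map Prod.swap ↔ a.swap ∈ p := by
    intro a
    rw [List.mem_map]
    constructor
    · rintro ⟨b, hb, rfl⟩
      simpa using hb
    · intro ha
      exact ⟨a.swap, ha, by simp⟩
  refine ⟨?_, ?_, ?_, ?_⟩
  · intro a ha b hb
    exact (h.eq _ ((key a).1 ha) _ ((key b).1 hb)).symm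
  · intro a ha b hb
    exact (h.adj _ ((key a).1 ha) _ ((key b).1 hb)).symm
  · intro a ha b hb hab
    refine (h.cn _ ((key a).1 ha) _ ((key b).1 hb) ?_).symm
    intro e
    exact hab ((h.eq _ ((key a).1 ha) _ ((key b).1 hb)).1 e)
  · intro a ha t ht n hn
    have ha' := (key a).1 ha
    have hex : ∀ y : t, ∃ b ∈ p, b.2 = y.1 := by
      rintro ⟨y, hy⟩
      obtain ⟨-, ⟨b, hb, e⟩, -⟩ := ht y hy
      exact ⟨b.swap, (key b).1 hb, e⟩
    choose φ hφ hφ2 using hex
    have hinj : Function.Injective fun y : t => (φ y).1 := by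
      intro y y' hyy
      have := (h.eq _ (hφ y) _ (hφ y')).1 hyy
      rw [hφ2, hφ2] at this
      exact Subtype.ext this
    have hcard : (Finset.univ.image fun y : t => (φ y).1).card = t.card := by
      rw [Finset.card_image_of_injective _ hinj]
      simp
    refine (h.deg a.swap ha' (Finset.univ.image fun y : t => (φ y).1) ?_ n (by omega)).symm
    intro x hx
    obtain ⟨y, -, rfl⟩ := Finset.mem_image.1 hx
    obtain ⟨h1, -, h3⟩ := ht y.1 y.2
    have hne : a.swap.1 ≠ (φ y).1 := by
      intro e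
      have h4 := (h.eq _ ha' _ (hφ y)).1 e
      rw [hφ2] at h4
      exact h1 h4.symm
    refine ⟨fun e => hne e.symm, ⟨φ y, hφ y, rfl⟩, ?_⟩
    rcases h3 with h3 | h3
    · left
      rw [h.adj _ ha' _ (hφ y), hφ2]
      exact h3
    · right
      rw [h.cn _ ha' _ (hφ y) hne, hφ2]
      exact h3

private theorem PI_cons {p : List (V × W)} (h : C1 G H p) (v : V) (w : W)
    (h1 : ∀ a ∈ p, (v = a.1 ↔ w = a.2) ∧ (G.Adj v a.1 ↔ H.Adj w a.2)) :
    PI G H ((v, w) :: p) := by
  intro x hx y hy
  rcases List.mem_cons.1 hx with rfl | hx <;> rcases List.mem_cons.1 hy with rfl | hy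
  · simp
  · exact h1 y hy
  · have h2 := h1 x hx
    exact ⟨by rw [eq_comm, h2.1, eq_comm], by rw [G.adj_comm, h2.2, H.adj_comm]⟩
  · exact ⟨h.eq x hx y hy, h.adj x hx y hy⟩

/-- the forward move -/
private theorem forth (k : ℕ) (hBG : Bip G) (hBH : Bip H) (hNG : NoCyc G 6) (hNH : NoCyc H 6)
    (hF : Free H k) (p : List (V × W)) (hp : p.length ≤ k) (h : C1 G H p) (v : V) :
    ∃ w, PI G H ((v, w) :: p) := by
  classical
  by_cases hm : ∃ a ∈ p, a.1 = v
  · obtain ⟨a, ha, rfl⟩ := hm
    exact ⟨a.2, PI_cons h _ _ fun b hb => ⟨h.eq a ha b hb, h.adj a ha b hb⟩⟩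
  push Not at hm
  by_cases h0 : ∃ a ∈ p, G.Adj v a.1
  · obtain ⟨a, ha, hva⟩ := h0
    by_cases h2 : ∃ b ∈ p, b.1 ≠ a.1 ∧ G.Adj v b.1
    · -- at least two adjacent marks
      obtain ⟨b, hb, hba, hvb⟩ := h2
      have hcn : CN G a.1 b.1 := ⟨v, hva.symm, hvb.symm⟩
      rw [h.cn a ha b hb hba.symm] at hcn
      obtain ⟨w, hw1, hw2⟩ := hcn
      have hba' : b.2 ≠ a.2 := fun e => hba ((h.eq b hb a ha).2 e)
      have hwm : ∀ c ∈ p, c.2 ≠ w := by
        rintro c hc rfl
        have h3 := (h.adj a ha c hc).2 hw1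
        have h4 := (h.adj b hb c hc).2 hw2
        exact hm c hc (quad hNG hba.symm h3 h4 hva.symm hvb.symm)
      refine ⟨w, PI_cons h _ _ fun c hc => ⟨⟨fun e => (hm c hc e.symm).elim,
        fun e => (hwm c hc e.symm).elim⟩, ?_⟩⟩
      by_cases hca : c.1 = a.1
      · have e : c.2 = a.2 := (h.eq c hc a ha).1 hca
        rw [hca, e]
        exact ⟨fun _ => hw1.symm, fun _ => hva⟩
      by_cases hcb : c.1 = b.1
      · have e : c.2 = b.2 := (h.eq c hc b hb).1 hcb
        rw [hcb, e]
        exact ⟨fun _ => hw2.symm, fun _ => hvb⟩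
      have hca' : c.2 ≠ a.2 := fun e => hca ((h.eq c hc a ha).2 e)
      have hcb' : c.2 ≠ b.2 := fun e => hcb ((h.eq c hc b hb).2 e)
      constructor
      · intro hvc
        obtain ⟨w', h5, h6⟩ := (h.cn a ha c hc (Ne.symm hca)).1 ⟨v, hva.symm, hvc.symm⟩
        obtain ⟨w'', h7, h8⟩ := (h.cn b hb c hc (Ne.symm hcb)).1 ⟨v, hvb.symm, hvc.symm⟩
        have := hex hBH hNH hba'.symm hca'.symm hcb'.symm hw1 hw2 h5 h6 h7 h8
        rw [this]
        exact h6.symm
      · intro hwc
        obtain ⟨w', h5, h6⟩ := (h.cn a ha c hc (Ne.symm hca)).2 ⟨w, hw1, hwc.symm⟩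
        obtain ⟨w'', h7, h8⟩ := (h.cn b hb c hc (Ne.symm hcb)).2 ⟨w, hw2, hwc.symm⟩
        have := hex hBG hNG hba.symm (Ne.symm hca) (Ne.symm hcb) hva.symm hvb.symm h5 h6 h7 h8
        rw [this]
        exact h6.symm
    · -- exactly one adjacent mark
      push Not at h2
      have key : ∃ w, H.Adj a.2 w ∧ (∀ b ∈ p, b.2 ≠ a.2 → ¬ Bk H a.2 b.2 w) := by
        by_contra hcon
        push Not at hcon
        choose g hgp hga hgb using hcon
        -- `g w` is a mark which blocks `w`
        let f : {w // H.Adj a.2 w} → V := fun w => (g w.1 w.2).1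
        have hfinj : Function.Injective f := by
          intro w w' hww
          have e : (g w.1 w.2).2 = (g w'.1 w'.2).2 :=
            (h.eq _ (hgp w.1 w.2) _ (hgp w'.1 w'.2)).1 hww
          have h3 := hgb w.1 w.2
          have h4 := hgb w'.1 w'.2
          rw [← e] at h4
          exact Subtype.ext (Bk_unique hBH hNH (hga w.1 w.2).symm h3 h4)
        have hffin : Finite {w // H.Adj a.2 w} := by
          have hmem : ∀ w, f w ∈ (p.map Prod.fst).toFinset := by
            intro w
            rw [List.mem_toFinset]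
            exact List.mem_map_of_mem (hgp w.1 w.2)
          refine Finite.of_injective
            (fun w => (⟨f w, hmem w⟩ : {x // x ∈ (p.map Prod.fst).toFinset})) ?_
          intro w w' hww
          exact hfinj (congrArg Subtype.val hww)
        haveI := Fintype.ofFinite {w // H.Adj a.2 w}
        set t : Finset V := Finset.univ.image f with ht
        have htc : t.card = Fintype.card {w // H.Adj a.2 w} := by
          rw [ht, Finset.card_image_of_injective _ hfinj, Finset.card_univ]
        have hst : ∀ w : {w // H.Adj a.2 w}, (g w.1 w.2).1 ≠ a.1 := by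
          intro w e
          exact hga w.1 w.2 ((h.eq _ (hgp w.1 w.2) _ ha).1 e)
        have hrel : ∀ w : {w // H.Adj a.2 w}, G.Adj a.1 (g w.1 w.2).1 ∨ CN G a.1 (g w.1 w.2).1 := by
          intro w
          rcases (hgb w.1 w.2).2 with e | e
          · left
            rw [h.adj a ha _ (hgp w.1 w.2), ← e]
            exact w.2
          · right
            rw [h.cn a ha _ (hgp w.1 w.2) (hst w).symm]
            exact ⟨w.1, w.2, e⟩
        have hβ : ∀ w : {w // H.Adj a.2 w}, ∃ u, Bk G a.1 (g w.1 w.2).1 u := fun w =>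
          Bk_exists (hrel w)
        choose β hβ using hβ
        have hstat : ∀ w : {w // H.Adj a.2 w}, (β w = (g w.1 w.2).1 ↔ w.1 = (g w.1 w.2).2) := by
          intro w
          constructor
          · intro e
            have h3 : G.Adj a.1 (g w.1 w.2).1 := by
              have := (hβ w).1
              rwa [e] at this
            rw [h.adj a ha _ (hgp w.1 w.2)] at h3
            exact Bk_unique hBH hNH (hga w.1 w.2).symm (hgb w.1 w.2) ⟨h3, Or.inl rfl⟩
          · intro e
            have h3 : H.Adj a.2 (g w.1 w.2).2 := by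
              have := w.2
              rwa [e] at this
            rw [← h.adj a ha _ (hgp w.1 w.2)] at h3
            exact Bk_unique hBG hNG (hst w).symm (hβ w) ⟨h3, Or.inl rfl⟩
        have hadj : ∀ w : {w // H.Adj a.2 w}, β w ≠ (g w.1 w.2).1 →
            G.Adj (g w.1 w.2).1 (β w) ∧ H.Adj (g w.1 w.2).2 w.1 := by
          intro w hne
          have hne' : w.1 ≠ (g w.1 w.2).2 := fun e => hne ((hstat w).2 e)
          exact ⟨(hβ w).2.resolve_left hne, (hgb w.1 w.2).2.resolve_left hne'⟩
        have hβinj : Function.Injective β := by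
          intro w w' hww
          by_cases e1 : β w = (g w.1 w.2).1 <;> by_cases e2 : β w' = (g w'.1 w'.2).1
          · apply hfinj
            show (g w.1 w.2).1 = (g w'.1 w'.2).1
            rw [← e1, ← e2, hww]
          · -- `w` is the mark itself
            obtain ⟨h3, h4⟩ := hadj w' e2
            rw [← hww, e1, h.adj _ (hgp w'.1 w'.2) _ (hgp w.1 w.2), ← (hstat w).1 e1] at h3
            exact Subtype.ext (Bk_unique hBH hNH (hga w'.1 w'.2).symm ⟨w.2, Or.inr h3⟩
              (hgb w'.1 w'.2))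
          · obtain ⟨h3, h4⟩ := hadj w e1
            rw [hww, e2, h.adj _ (hgp w.1 w.2) _ (hgp w'.1 w'.2), ← (hstat w').1 e2] at h3
            exact Subtype.ext (Bk_unique hBH hNH (hga w.1 w.2).symm (hgb w.1 w.2)
              ⟨w'.2, Or.inr h3⟩)
          · obtain ⟨h3, h4⟩ := hadj w e1
            obtain ⟨h5, h6⟩ := hadj w' e2
            by_cases e3 : (g w.1 w.2).1 = (g w'.1 w'.2).1
            · exact hfinj e3
            · have e3' : (g w.1 w.2).2 ≠ (g w'.1 w'.2).2 := fun e =>
                e3 ((h.eq _ (hgp w.1 w.2) _ (hgp w'.1 w'.2)).2 e)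
              obtain ⟨u, h7, h8⟩ := (h.cn _ (hgp w.1 w.2) _ (hgp w'.1 w'.2) e3).1
                ⟨β w, h3, by rw [hww]; exact h5⟩
              exact Subtype.ext (hex hBH hNH (hga w.1 w.2).symm (hga w'.1 w'.2).symm e3' w.2 h4
                w'.2 h6 h7 h8)
        have hvβ : v ∉ Finset.univ.image β := by
          intro hv
          obtain ⟨w, -, e⟩ := Finset.mem_image.1 hv
          rcases (hβ w).2 with e1 | e1
          · exact hm _ (hgp w.1 w.2) (e1.symm.trans e)
          · rw [e] at e1
            exact h2 _ (hgp w.1 w.2) (hst w) e1.symm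
        have hdeg := h.deg a ha t (by
          intro x hx
          obtain ⟨w, -, rfl⟩ := Finset.mem_image.1 hx
          exact ⟨hst w, ⟨_, hgp w.1 w.2, rfl⟩, hrel w⟩) (t.card + 1) le_rfl
        have h3 : DegGe G (t.card + 1) a.1 := by
          refine ⟨insert v (Finset.univ.image β), ?_, ?_⟩
          · rw [Finset.card_insert_of_notMem hvβ, Finset.card_image_of_injective _ hβinj,
              Finset.card_univ, htc]
          · intro x hx
            rcases Finset.mem_insert.1 hx with rfl | hx
            · exact hva.symm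
            · obtain ⟨w, -, rfl⟩ := Finset.mem_image.1 hx
              exact (hβ w).1
        obtain ⟨s, hs1, hs2⟩ := hdeg.1 h3
        have h4 : s.card ≤ Fintype.card {w // H.Adj a.2 w} := by
          have : (s.attach.image fun x => (⟨x.1, hs2 x.1 x.2⟩ : {w // H.Adj a.2 w})).card
              = s.card := by
            rw [Finset.card_image_of_injective, Finset.card_attach]
            intro x y hxy
            exact Subtype.ext (congrArg (fun z : {w // H.Adj a.2 w} => z.1) hxy)
          rw [← this]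
          exact Finset.card_le_univ _
        omega
      obtain ⟨w, hw1, hw2⟩ := key
      have hwm : ∀ b ∈ p, b.2 ≠ w := by
        rintro b hb rfl
        exact hw2 b hb hw1.ne' ⟨hw1, Or.inl rfl⟩
      refine ⟨w, PI_cons h _ _ fun c hc => ⟨⟨fun e => (hm c hc e.symm).elim,
        fun e => (hwm c hc e.symm).elim⟩, ?_⟩⟩
      by_cases hca : c.1 = a.1
      · have e : c.2 = a.2 := (h.eq c hc a ha).1 hca
        rw [hca, e]
        exact ⟨fun _ => hw1.symm, fun _ => hva⟩
      · have hca' : c.2 ≠ a.2 := fun e => hca ((h.eq c hc a ha).2 e)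
        constructor
        · intro hvc
          exact (h2 c hc hca hvc).elim
        · intro hwc
          exact (hw2 c hc hca' ⟨hw1, Or.inr hwc.symm⟩).elim
  · -- no adjacent mark
    push Not at h0
    obtain ⟨w, hw1, hw2⟩ := hF (p.map Prod.snd).toFinset
      ((List.toFinset_card_le _).trans (by simpa using hp))
    refine ⟨w, PI_cons h _ _ fun c hc => ⟨⟨fun e => (hm c hc e.symm).elim, fun e => ?_⟩,
      ⟨fun e => (h0 c hc e).elim, fun e => ?_⟩⟩⟩
    · exfalso
      apply hw1
      rw [List.mem_toFinset, e]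
      exact List.mem_map_of_mem hc
    · exfalso
      refine hw2 c.2 ?_ e.symm
      rw [List.mem_toFinset]
      exact List.mem_map_of_mem hc

end main

theorem pEF1 : StEF1 := by
  intro V W G H k hBG hBH hNG hNH hFG hFH p hp h
  refine ⟨fun x hx y hy => ⟨h.eq x hx y hy, h.adj x hx y hy⟩, ?_, ?_⟩
  · intro v
    exact forth k hBG hBH hNG hNH hFH p hp h v
  · intro w
    obtain ⟨v, hv⟩ := forth k hBH hBG hNH hNG hFG (p.map Prod.swap) (by simpa using hp)
      (C1_symm h) w
    refine ⟨v, fun x hx y hy => ?_⟩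
    have hmem : ∀ x : V × W, x ∈ (v, w) :: p → x.swap ∈ (w, v) :: p.map Prod.swap := by
      intro x hx
      rcases List.mem_cons.1 hx with rfl | hx
      · exact List.mem_cons_self
      · exact List.mem_cons_of_mem _ (List.mem_map_of_mem hx)
    have := hv x.swap (hmem x hx) y.swap (hmem y hy)
    exact ⟨this.1.symm, this.2.symm⟩

end Pool.Agent.Helper72.LD
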